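import Mathlib
import Pool.Agent.Helper4.QN.Defs

/-! QN-7 and QN-8: adding and removing a vector (matrix determinant lemma, Sherman-Morrison). -/

set_option autoImplicit false

namespace Pool.Agent.Helper62.QN

open scoped BigOperators RealInnerProductSpace
open Pool.Agent.Helper4.QN
open Matrix

/-- Determinant lemma and Sherman-Morrison for a symmetric matrix `M` and `M + ε a aᵀ`. -/
theorem sm {d : ℕ} (M : Matrix (Fin d) (Fin d) ℝ) (hs : Mᵀ = M) (hM : M.det ≠ 0)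
    (a : Fin d → ℝ) (ε : ℝ) (hb : 1 + ε * (a ⬝ᵥ M⁻¹ *ᵥ a) ≠ 0) :
    (M + ε • vecMulVec a a).det = M.det * (1 + ε * (a ⬝ᵥ M⁻¹ *ᵥ a)) ∧
    ∀ x : Fin d → ℝ, x ⬝ᵥ (M + ε • vecMulVec a a)⁻¹ *ᵥ x =
      x ⬝ᵥ M⁻¹ *ᵥ x - ε * (x ⬝ᵥ M⁻¹ *ᵥ a) ^ 2 / (1 + ε * (a ⬝ᵥ M⁻¹ *ᵥ a)) := by
  have hu : IsUnit M.det := isUnit_iff_ne_zero.2 hM
  have hMN : M * M⁻¹ = 1 := mul_nonsing_inv M hu
  have hNs : (M⁻¹)ᵀ = M⁻¹ := by rw [transpose_nonsing_inv, hs]
  set N : Matrix (Fin d) (Fin d) ℝ := M⁻¹ with hN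
  set b : ℝ := a ⬝ᵥ N *ᵥ a with hbdef
  have hvm : ∀ y : Fin d → ℝ, y ᵥ* N = N *ᵥ y := fun y => by
    rw [← mulVec_transpose, hNs]
  constructor
  · have h1 : M + ε • vecMulVec a a = M * (1 + vecMulVec (ε • N *ᵥ a) a) := by
      rw [Matrix.mul_add, Matrix.mul_one, mul_vecMulVec, mulVec_smul, mulVec_mulVec, hMN,
        one_mulVec, smul_vecMulVec]
    rw [h1, det_mul]
    congr 1
    rw [vecMulVec_eq Unit, det_one_add_replicateCol_mul_replicateRow, dotProduct_smul, smul_eq_mul]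
  · have hMa : M *ᵥ (N *ᵥ a) = a := by rw [mulVec_mulVec, hMN, one_mulVec]
    have hinv : (M + ε • vecMulVec a a)⁻¹
        = N - (ε / (1 + ε * b)) • vecMulVec (N *ᵥ a) (N *ᵥ a) := by
      apply inv_eq_right_inv
      have e1 : (M + ε • vecMulVec a a) * N = 1 + ε • vecMulVec a (N *ᵥ a) := by
        rw [Matrix.add_mul, hMN, smul_mul_assoc, vecMulVec_mul, hvm]
      have e2 : (M + ε • vecMulVec a a) * vecMulVec (N *ᵥ a) (N *ᵥ a)
          = (1 + ε * b) • vecMulVec a (N *ᵥ a) := by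
        rw [mul_vecMulVec, add_mulVec, hMa, smul_mulVec, vecMulVec_mulVec]
        ext i j
        simp only [vecMulVec_apply, Pi.add_apply, Pi.smul_apply, Matrix.smul_apply, smul_eq_mul,
          MulOpposite.smul_eq_mul_unop, MulOpposite.unop_op]
        ring
      rw [Matrix.mul_sub, mul_smul_comm, e1, e2, smul_smul, div_mul_cancel₀ _ hb, add_sub_cancel_right]
    intro x
    rw [hinv, sub_mulVec, dotProduct_sub]
    congr 1
    rw [smul_mulVec, dotProduct_smul, smul_eq_mul, vecMulVec_mulVec]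
    have e3 : x ⬝ᵥ (MulOpposite.op ((N *ᵥ a) ⬝ᵥ x) • (N *ᵥ a)) = (x ⬝ᵥ N *ᵥ a) ^ 2 := by
      rw [dotProduct_smul, dotProduct_comm (N *ᵥ a) x]
      simp only [MulOpposite.smul_eq_mul_unop, MulOpposite.unop_op]
      ring
    rw [e3]
    ring

theorem gm_transpose {d n : ℕ} (w : Fin n → ℝ) (v : Fin n → EuclideanSpace ℝ (Fin d)) :
    (gm w v)ᵀ = gm w v := by
  unfold gm
  rw [transpose_sum]
  apply Finset.sum_congr rfl
  intro j _
  rw [transpose_smul, transpose_vecMulVec]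

theorem gm_quad_nonneg {d n : ℕ} (v : Fin n → EuclideanSpace ℝ (Fin d)) (y : Fin d → ℝ) :
    0 ≤ y ⬝ᵥ (gm (fun _ => 1) v) *ᵥ y := by
  unfold gm
  rw [sum_mulVec, dotProduct_sum]
  apply Finset.sum_nonneg
  intro j _
  rw [one_smul, vecMulVec_mulVec, dotProduct_smul, MulOpposite.smul_eq_mul_unop,
    MulOpposite.unop_op, dotProduct_comm y]
  exact mul_self_nonneg _

theorem bi_self_nonneg {d n : ℕ} (v : Fin n → EuclideanSpace ℝ (Fin d))
    (hM : 0 < (gm (fun _ => 1) v).det) (a : EuclideanSpace ℝ (Fin d)) :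
    0 ≤ bi (gm (fun _ => 1) v) a a := by
  have hu : IsUnit (gm (fun _ => 1) v).det := isUnit_iff_ne_zero.2 hM.ne'
  have h1 := gm_quad_nonneg v ((gm (fun _ => 1) v)⁻¹ *ᵥ a.ofLp)
  rw [mulVec_mulVec, mul_nonsing_inv _ hu, one_mulVec, dotProduct_comm] at h1
  exact h1

/-- QN-7 (adding a vector). -/
theorem add_vec {d n : ℕ} (v : Fin n → EuclideanSpace ℝ (Fin d))
    (hM : 0 < (gm (fun _ => 1) v).det) (a : EuclideanSpace ℝ (Fin d)) :
    (gm (fun _ => 1) (Fin.cons a v : Fin (n + 1) → EuclideanSpace ℝ (Fin d))).det =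
      (gm (fun _ => 1) v).det * (1 + bi (gm (fun _ => 1) v) a a) ∧
    ∀ x, bi (gm (fun _ => 1) (Fin.cons a v : Fin (n + 1) → EuclideanSpace ℝ (Fin d))) x x =
      bi (gm (fun _ => 1) v) x x -
        bi (gm (fun _ => 1) v) x a ^ 2 / (1 + bi (gm (fun _ => 1) v) a a) := by
  have h0 : gm (fun _ => 1) (Fin.cons a v : Fin (n + 1) → EuclideanSpace ℝ (Fin d))
      = gm (fun _ => 1) v + (1 : ℝ) • vecMulVec a.ofLp a.ofLp := by
    unfold gm
    rw [Fin.sum_univ_succ]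
    simp only [Fin.cons_zero, Fin.cons_succ]
    rw [add_comm]
  have hb := bi_self_nonneg v hM a
  have h1 := sm (gm (fun _ => 1) v) (gm_transpose _ v) hM.ne' a.ofLp 1 (by
    unfold bi at hb
    rw [one_mul]
    positivity)
  rw [h0]
  unfold bi
  simp only [one_mul] at h1
  exact ⟨h1.1, fun x => h1.2 x.ofLp⟩

/-- QN-8 (removing a vector). -/
theorem rem_vec {d n : ℕ} (v : Fin (n + 1) → EuclideanSpace ℝ (Fin d))
    (hM : 0 < (gm (fun _ => 1) v).det) (j : Fin (n + 1))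
    (hj : bi (gm (fun _ => 1) v) (v j) (v j) < 1) :
    (gm (fun _ => 1) (fun i => v (j.succAbove i))).det =
      (gm (fun _ => 1) v).det * (1 - bi (gm (fun _ => 1) v) (v j) (v j)) ∧
    ∀ x, bi (gm (fun _ => 1) (fun i => v (j.succAbove i))) x x =
      bi (gm (fun _ => 1) v) x x +
        bi (gm (fun _ => 1) v) x (v j) ^ 2 / (1 - bi (gm (fun _ => 1) v) (v j) (v j)) := by
  have h0 : gm (fun _ => 1) (fun i => v (j.succAbove i))
      = gm (fun _ => 1) v + (-1 : ℝ) • vecMulVec (v j).ofLp (v j).ofLp := by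
    unfold gm
    rw [Fin.sum_univ_succAbove (fun i => (1 : ℝ) • vecMulVec (v i).ofLp (v i).ofLp) j]
    rw [neg_smul]
    abel
  have h1 := sm (gm (fun _ => 1) v) (gm_transpose _ v) hM.ne' (v j).ofLp (-1) (by
    unfold bi at hj
    intro h
    linarith)
  rw [h0]
  unfold bi
  refine ⟨by rw [h1.1]; ring, fun x => ?_⟩
  rw [h1.2 x.ofLp]
  ring

end Pool.Agent.Helper62.QN
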